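import Mathlib

/-! Blow-ups of cycles with class sizes 1, 2, 4, ... : an antichain of graphs each of which has an
odd number of labelled copies. -/

namespace Pool.Agent.Lib.MP_904b92_lc

open Equiv Nat

/-- vertices of the blow-up of the cycle of length `t + 5` -/
abbrev V (t : ℕ) : Type := Σ i : ZMod (t + 5), Fin (2 ^ i.val)

/-- adjacency in the blow-up -/
def E (t : ℕ) (x y : V t) : Prop := y.1 = x.1 + 1 ∨ x.1 = y.1 + 1

/-- the blow-up number `t` is an induced substructure of `R` -/
def Emb (t : ℕ) {α : Type} (R : α → α → Prop) : Prop :=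
  ∃ g : V t → α, Function.Injective g ∧ ∀ x y, R (g x) (g y) ↔ E t x y

lemma sum_val (n : ℕ) (f : ℕ → ℕ) :
    ∑ i : ZMod (n + 1), f i.val = ∑ i ∈ Finset.range (n + 1), f i := by
  rw [Finset.sum_range]
  rfl

lemma prod_val (n : ℕ) (f : ℕ → ℕ) :
    ∏ i : ZMod (n + 1), f i.val = ∏ i ∈ Finset.range (n + 1), f i := by
  rw [Finset.prod_range]
  rfl

lemma sum_two_pow (n : ℕ) : ∑ i ∈ Finset.range n, 2 ^ i + 1 = 2 ^ n := by
  induction n with
  | zero => simp
  | succ n ih => rw [Finset.sum_range_succ, pow_succ]; omega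

lemma card_V (t : ℕ) : Fintype.card (V t) + 1 = 2 ^ (t + 5) := by
  rw [Fintype.card_sigma]
  simp only [Fintype.card_fin]
  rw [sum_val (t + 4) (fun i => 2 ^ i), sum_two_pow]

lemma card_V_lt {t s : ℕ} (h : t < s) : Fintype.card (V t) < Fintype.card (V s) := by
  have h1 := card_V t
  have h2 := card_V s
  have : 2 ^ (t + 5) < 2 ^ (s + 5) := Nat.pow_lt_pow_right (by norm_num) (by omega)
  omega

lemma odd_choose (m k : ℕ) (hk : k < 2 ^ m) : Odd ((2 ^ m - 1).choose k) := by
  induction k with
  | zero => simp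
  | succ k ih =>
    have h1 := ih (by omega)
    have h2 : 2 ∣ (2 ^ m).choose (k + 1) :=
      Nat.Prime.dvd_choose_pow Nat.prime_two (by omega) (by omega)
    have h3 : (2 ^ m).choose (k + 1) = (2 ^ m - 1).choose k + (2 ^ m - 1).choose (k + 1) := by
      have : 2 ^ m = (2 ^ m - 1) + 1 := by omega
      conv_lhs => rw [this]
      exact Nat.choose_succ_succ' _ _
    rw [h3] at h2
    rcases Nat.even_or_odd ((2 ^ m - 1).choose (k + 1)) with h | h
    · exfalso
      have := h1.add_even h
      exact (Nat.not_even_iff_odd.mpr this) (even_iff_two_dvd.mpr h2)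
    · exact h

lemma factorial_eq (n : ℕ) :
    ∃ q, Odd q ∧ (2 ^ n - 1)! = (∏ i ∈ Finset.range n, (2 ^ i)!) * q := by
  induction n with
  | zero => exact ⟨1, odd_one, by simp⟩
  | succ n ih =>
    obtain ⟨q, hq, h⟩ := ih
    have hpos : 0 < 2 ^ n := by positivity
    have hlt : 2 ^ n < 2 ^ (n + 1) := by rw [pow_succ]; omega
    refine ⟨q * (2 ^ (n + 1) - 1).choose (2 ^ n), hq.mul (odd_choose _ _ hlt), ?_⟩
    have h1 := Nat.choose_mul_factorial_mul_factorial (n := 2 ^ (n + 1) - 1) (k := 2 ^ n)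
      (by omega)
    have h2 : 2 ^ (n + 1) - 1 - 2 ^ n = 2 ^ n - 1 := by rw [pow_succ]; omega
    rw [h2, h] at h1
    rw [← h1, Finset.prod_range_succ]
    ring

/-- permutations act on binary relations -/
@[reducible] def relAction (α : Type) : MulAction (Perm α) (α → α → Prop) where
  smul g R := fun a b => R (g⁻¹ a) (g⁻¹ b)
  one_smul R := rfl
  mul_smul g h R := by
    funext a b
    change R ((g * h)⁻¹ a) ((g * h)⁻¹ b) = R (h⁻¹ (g⁻¹ a)) (h⁻¹ (g⁻¹ b))
    simp [mul_inv_rev]

/-- class preserving permutations -/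
def H (s : ℕ) : Subgroup (Perm (V s)) where
  carrier := {g | (Sigma.fst : V s → _) ∘ g = Sigma.fst}
  one_mem' := rfl
  mul_mem' := by
    intro a b ha hb
    funext x
    have h1 := congrFun ha (b x)
    have h2 := congrFun hb x
    simp only [Function.comp] at h1 h2 ⊢
    rw [← h2, ← h1]; rfl
  inv_mem' := by
    intro a ha
    funext x
    have h1 := congrFun ha (a⁻¹ x)
    simp only [Function.comp] at h1 ⊢
    rw [← h1]; simp

lemma card_H (s : ℕ) : Nat.card (H s) = ∏ i ∈ Finset.range (s + 5), (2 ^ i)! := by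
  classical
  have h := DomMulAct.stabilizer_card (Sigma.fst : V s → ZMod (s + 5))
  have h2 : ∀ i : ZMod (s + 5), Fintype.card {a : V s // a.1 = i} = 2 ^ i.val := by
    intro i
    rw [Fintype.card_congr (Equiv.sigmaSubtype i)]
    simp
  simp only [h2] at h
  rw [prod_val (s + 4) (fun i => (2 ^ i)!)] at h
  rw [← h, ← Nat.card_eq_fintype_card]
  rfl

lemma odd_copies (s : ℕ) : Odd (Nat.card {R : V s → V s → Prop // Emb s R}) := by
  classical
  let := relAction (V s)
  have horb : {R : V s → V s → Prop | Emb s R} = MulAction.orbit (Perm (V s)) (E s) := by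
    ext R
    constructor
    · rintro ⟨g, hg, h⟩
      have hb : Function.Bijective g := Finite.injective_iff_bijective.mp hg
      refine ⟨Equiv.ofBijective g hb, ?_⟩
      funext a b
      obtain ⟨a, rfl⟩ := hb.2 a
      obtain ⟨b, rfl⟩ := hb.2 b
      change E s ((Equiv.ofBijective g hb).symm (g a)) ((Equiv.ofBijective g hb).symm (g b)) = _
      rw [Equiv.ofBijective_symm_apply_apply, Equiv.ofBijective_symm_apply_apply]
      exact propext (h a b).symm
    · rintro ⟨g, rfl⟩
      refine ⟨g, g.injective, fun x y => ?_⟩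
      change E s (g⁻¹ (g x)) (g⁻¹ (g y)) ↔ _
      simp
  have hle : H s ≤ MulAction.stabilizer (Perm (V s)) (E s) := by
    intro g hg
    have hg' := (H s).inv_mem hg
    change (fun a b => E s (g⁻¹ a) (g⁻¹ b)) = E s
    funext a b
    have ha : (g⁻¹ a).1 = a.1 := congrFun hg' a
    have hb : (g⁻¹ b).1 = b.1 := congrFun hg' b
    simp only [E, ha, hb]
  obtain ⟨k, hk⟩ := Subgroup.card_dvd_of_le hle
  have hos := MulAction.card_orbit_mul_card_stabilizer_eq_card_group (Perm (V s)) (E s)
  rw [← Nat.card_eq_fintype_card, ← Nat.card_eq_fintype_card, hk, card_H, Fintype.card_perm] at hos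
  obtain ⟨q, hq, h⟩ := factorial_eq (s + 5)
  have hc : Fintype.card (V s) = 2 ^ (s + 5) - 1 := by have := card_V s; omega
  rw [hc, h] at hos
  have hpos : 0 < ∏ i ∈ Finset.range (s + 5), (2 ^ i)! :=
    Finset.prod_pos fun i _ => Nat.factorial_pos _
  have h3 : Nat.card (MulAction.orbit (Perm (V s)) (E s)) * k = q := by
    apply Nat.eq_of_mul_eq_mul_left hpos
    rw [← hos]; ring
  have h4 : Nat.card {R : V s → V s → Prop // Emb s R}
      = Nat.card (MulAction.orbit (Perm (V s)) (E s)) := by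
    rw [← horb]; rfl
  rw [h4]
  rw [← h3] at hq
  exact (Nat.odd_mul.mp hq).1

lemma not_emb_E {t s : ℕ} (h : t < s) : ¬ Emb t (E s) := by
  rintro ⟨g, -, hg⟩
  let x : ZMod (t + 5) → V t := fun i => ⟨i, ⟨0, by positivity⟩⟩
  let y : ZMod (t + 5) → ZMod (s + 5) := fun i => (g (x i)).1
  have hadj : ∀ i j, (y j = y i + 1 ∨ y i = y j + 1) ↔ (j = i + 1 ∨ i = j + 1) :=
    fun i j => hg (x i) (x j)
  have hne : ∀ c : ℕ, 0 < c → c < 5 → (c : ZMod (t + 5)) ≠ 0 := by
    intro c h0 h5 hc
    rw [ZMod.natCast_eq_zero_iff] at hc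
    have := Nat.le_of_dvd h0 hc
    omega
  have h2 : ∀ i, y (i + 2) ≠ y i := by
    intro i hi
    have h3 : y (i + 3) = y (i + 2) + 1 ∨ y (i + 2) = y (i + 3) + 1 :=
      (hadj (i + 2) (i + 3)).mpr (Or.inl (by ring))
    rw [hi] at h3
    rcases (hadj i (i + 3)).mp h3 with h4 | h4
    · apply hne 2 (by norm_num) (by norm_num)
      push_cast
      linear_combination h4
    · apply hne 4 (by norm_num) (by norm_num)
      push_cast
      linear_combination -h4
  have hstep : ∀ i, y (i + 1) = y i + 1 ∨ y i = y (i + 1) + 1 :=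
    fun i => (hadj i (i + 1)).mpr (Or.inl rfl)
  have hd : ∀ i, y (i + 1 + 1) - y (i + 1) = y (i + 1) - y i := by
    intro i
    have e : i + 1 + 1 = i + 2 := by ring
    have a1 := hstep i
    have a2 := hstep (i + 1)
    have a3 := h2 i
    rw [e] at a2 ⊢
    rcases a1 with a1 | a1 <;> rcases a2 with a2 | a2
    · linear_combination a2 - a1
    · exact absurd (by linear_combination a1 - a2) a3
    · exact absurd (by linear_combination a2 - a1) a3
    · linear_combination a1 - a2
  have hd' : ∀ k : ℕ, y ((k : ZMod (t + 5)) + 1) - y k = y (0 + 1) - y 0 := by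
    intro k
    induction k with
    | zero => simp
    | succ k ih => rw [← ih]; push_cast; exact hd k
  have hy : ∀ k : ℕ, y k = y 0 + k * (y (0 + 1) - y 0) := by
    intro k
    induction k with
    | zero => simp
    | succ k ih =>
      have := hd' k
      push_cast
      linear_combination this + ih
  have hz := hy (t + 5)
  rw [ZMod.natCast_self] at hz
  have hz' : ((t + 5 : ℕ) : ZMod (s + 5)) = 0 := by
    rcases hstep 0 with a | a
    · linear_combination (-1 : ZMod (s + 5)) * hz - ((t + 5 : ℕ) : ZMod (s + 5)) * a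
    · linear_combination hz - ((t + 5 : ℕ) : ZMod (s + 5)) * a
  rw [ZMod.natCast_eq_zero_iff] at hz'
  have := Nat.le_of_dvd (by omega) hz'
  omega

lemma E_irrefl (s : ℕ) (x : V s) : ¬ E s x x := by
  have h1 : (1 : ZMod (s + 5)) ≠ 0 := by
    intro hc
    have : ((1 : ℕ) : ZMod (s + 5)) = 0 := by simpa using hc
    rw [ZMod.natCast_eq_zero_iff] at this
    have := Nat.le_of_dvd (by norm_num) this
    omega
  rintro (h | h) <;> exact h1 (by linear_combination -h)

lemma E_symm (s : ℕ) (x y : V s) (h : E s x y) : E s y x := h.symm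

end Pool.Agent.Lib.MP_904b92_lc
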