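import Mathlib
import Pool.Agent.Lib.MP_904b92_lc.Blowup

/-! Counting labelled graphs without the blow-ups indexed by `S`, and the cardinality argument. -/

namespace Pool.Agent.Lib.MP_904b92_lc

/-- simple graphs with no induced blow-up with index in `S` -/
def Good (S : Set ℕ) {α : Type} (R : α → α → Prop) : Prop :=
  (∀ x, ¬ R x x) ∧ (∀ x y, R x y → R y x) ∧ ∀ t ∈ S, ¬ Emb t R

lemma Good.comap {S : Set ℕ} {α β : Type} {R : α → α → Prop} (h : Good S R) (f : β → α)
    (hf : Function.Injective f) {R' : β → β → Prop} (hR : ∀ x y, R' x y ↔ R (f x) (f y)) :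
    Good S R' := by
  refine ⟨fun x hx => h.1 _ ((hR _ _).mp hx),
    fun x y hxy => (hR _ _).mpr (h.2.1 _ _ ((hR _ _).mp hxy)), ?_⟩
  rintro t ht ⟨g, hg, hE⟩
  exact h.2.2 t ht ⟨f ∘ g, hf.comp hg, fun x y => (hR _ _).symm.trans (hE x y)⟩

/-- number of good relations on a type -/
noncomputable def cnt (S : Set ℕ) (α : Type) : ℕ := Nat.card {R : α → α → Prop // Good S R}

lemma cnt_congr (S : Set ℕ) {α β : Type} (e : α ≃ β) : cnt S α = cnt S β := by
  refine Nat.card_congr ⟨fun R => ⟨fun x y => R.1 (e.symm x) (e.symm y),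
    R.2.comap e.symm e.symm.injective fun _ _ => Iff.rfl⟩,
    fun R => ⟨fun x y => R.1 (e x) (e y), R.2.comap e e.injective fun _ _ => Iff.rfl⟩, ?_, ?_⟩
  · intro R; ext x y; simp
  · intro R; ext x y; simp

lemma good_of_emb {S : Set ℕ} {s : ℕ} (hs : s ∉ S) {R : V s → V s → Prop} (h : Emb s R) :
    Good S R := by
  obtain ⟨g, hg, hE⟩ := h
  have hb : Function.Bijective g := Finite.injective_iff_bijective.mp hg
  let e := Equiv.ofBijective g hb
  have hE' : Good S (E s) := by
    refine ⟨E_irrefl s, E_symm s, fun t ht => ?_⟩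
    rcases lt_trichotomy t s with h | h | h
    · exact not_emb_E h
    · exact absurd (h ▸ ht) hs
    · rintro ⟨g', hg', -⟩
      have := Fintype.card_le_of_injective g' hg'
      have := card_V_lt h
      omega
  refine hE'.comap e.symm e.symm.injective fun x y => ?_
  obtain ⟨x, rfl⟩ := hb.2 x
  obtain ⟨y, rfl⟩ := hb.2 y
  rw [hE]
  simp [e]

lemma cnt_eq {S S' : Set ℕ} {s : ℕ} (hlt : ∀ t < s, t ∈ S ↔ t ∈ S') (hs : s ∉ S) (hs' : s ∈ S') :
    cnt S (V s) = cnt S' (V s) + Nat.card {R : V s → V s → Prop // Emb s R} := by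
  classical
  have key : ∀ R : V s → V s → Prop, Good S' R ↔ Good S R ∧ ¬ Emb s R := by
    intro R
    constructor
    · intro h
      refine ⟨⟨h.1, h.2.1, fun t ht => ?_⟩, h.2.2 s hs'⟩
      rcases lt_trichotomy t s with h1 | h1 | h1
      · exact h.2.2 t ((hlt t h1).mp ht)
      · exact absurd (h1 ▸ ht) hs
      · rintro ⟨g', hg', -⟩
        have := Fintype.card_le_of_injective g' hg'
        have := card_V_lt h1
        omega
    · rintro ⟨h, hne⟩
      refine ⟨h.1, h.2.1, fun t ht => ?_⟩
      rcases lt_trichotomy t s with h1 | h1 | h1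
      · exact h.2.2 t ((hlt t h1).mpr ht)
      · exact h1 ▸ hne
      · rintro ⟨g', hg', -⟩
        have := Fintype.card_le_of_injective g' hg'
        have := card_V_lt h1
        omega
  have h1 : {R : V s → V s → Prop | Good S R} = {R | Good S' R} ∪ {R | Emb s R} := by
    ext R
    simp only [Set.mem_ofPred_eq, Set.mem_union, key]
    constructor
    · intro h
      by_cases he : Emb s R
      · exact Or.inr he
      · exact Or.inl ⟨h, he⟩
    · rintro (h | h)
      · exact h.1
      · exact good_of_emb hs h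
  have h2 : Disjoint {R : V s → V s → Prop | Good S' R} {R | Emb s R} := by
    rw [Set.disjoint_left]
    intro R h
    exact ((key R).mp h).2
  change Set.ncard {R : V s → V s → Prop | Good S R}
    = Set.ncard {R : V s → V s → Prop | Good S' R} + Set.ncard {R : V s → V s → Prop | Emb s R}
  rw [h1, Set.ncard_union_eq h2]

/-- the parity sequence of the class indexed by `S` -/
noncomputable def par (S : Set ℕ) (n : ℕ) : ZMod 2 := (cnt S (Fin (n + 1)) : ZMod 2)

lemma par_ne {S S' : Set ℕ} {s : ℕ} (hlt : ∀ t < s, t ∈ S ↔ t ∈ S') (hs : s ∉ S) (hs' : s ∈ S') :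
    par S ≠ par S' := by
  intro h
  have hc := card_V s
  have h32 : 2 ^ 5 ≤ 2 ^ (s + 5) := Nat.pow_le_pow_right (by norm_num) (by omega)
  obtain ⟨n, hn⟩ : ∃ n, Fintype.card (V s) = n + 1 := ⟨Fintype.card (V s) - 1, by omega⟩
  have e : V s ≃ Fin (n + 1) := Fintype.equivFinOfCardEq hn
  have h1 := congrFun h n
  simp only [par, ← cnt_congr _ e] at h1
  rw [cnt_eq hlt hs hs'] at h1
  push_cast at h1
  have h2 := (ZMod.natCast_eq_one_iff_odd).mpr (odd_copies s)
  rw [h2] at h1
  have : (1 : ZMod 2) = 0 := by linear_combination h1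
  exact absurd this (by decide)

lemma par_injective : Function.Injective par := by
  classical
  intro S S' h
  by_contra hne
  have hex : ∃ s, ¬ (s ∈ S ↔ s ∈ S') := by
    by_contra hc
    push Not at hc
    exact hne (Set.ext hc)
  have hs := Nat.find_spec hex
  have hlt : ∀ t < Nat.find hex, t ∈ S ↔ t ∈ S' := fun t ht => by
    have := Nat.find_min hex ht
    tauto
  by_cases h1 : Nat.find hex ∈ S
  · exact par_ne (fun t ht => (hlt t ht).symm) (by tauto) h1 h.symm
  · exact par_ne hlt h1 (by tauto) h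

/-- sequences over `ZMod 2` satisfying an eventual linear recurrence -/
def Recur (f : ℕ → ZMod 2) : Prop :=
  ∃ r p : ℕ, ∃ α : Fin p → ℤ, ∀ n ≥ r, f (n + p) = ∑ i : Fin p, (α i : ZMod 2) * f (n + i)

lemma countable_recur : {f | Recur f}.Countable := by
  have h : {f | Recur f} = ⋃ (r : ℕ) (q : Σ p : ℕ, Fin p → ℤ),
      {f : ℕ → ZMod 2 | ∀ n ≥ r, f (n + q.1) = ∑ i : Fin q.1, (q.2 i : ZMod 2) * f (n + i)} := by
    ext f
    simp only [Recur, Set.mem_ofPred_eq, Set.mem_iUnion]
    constructor
    · rintro ⟨r, p, α, h⟩; exact ⟨r, ⟨p, α⟩, h⟩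
    · rintro ⟨r, ⟨p, α⟩, h⟩; exact ⟨r, p, α, h⟩
  rw [h]
  refine Set.countable_iUnion fun r => Set.countable_iUnion fun q => ?_
  obtain ⟨p, α⟩ := q
  refine Set.countable_of_injective_of_countable_image
    (f := fun (f : ℕ → ZMod 2) (i : Fin (r + p)) => f i) ?_ (Set.to_countable _)
  intro f hf g hg hfg
  funext n
  induction n using Nat.strong_induction_on with
  | _ n ih =>
    by_cases hn : n < r + p
    · exact congrFun hfg ⟨n, hn⟩
    · obtain ⟨m, rfl⟩ : ∃ m, n = m + p := ⟨n - p, by omega⟩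
      have h1 := hf m (by omega)
      have h2 := hg m (by omega)
      simp only at h1 h2
      rw [h1, h2]
      refine Finset.sum_congr rfl fun i _ => ?_
      rw [ih (m + i) (by have := i.2; omega)]

theorem exists_not_recur : ∃ S : Set ℕ, ¬ Recur (par S) := by
  by_contra hc
  push Not at hc
  have h : (Set.univ : Set (Set ℕ)).Countable :=
    Set.MapsTo.countable_of_injOn (f := par) (fun S _ => hc S) par_injective.injOn countable_recur
  have : Countable (Set ℕ) := Set.countable_univ_iff.mp h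
  obtain ⟨f, hf⟩ := exists_surjective_nat (Set ℕ)
  exact Function.cantor_surjective f hf

end Pool.Agent.Lib.MP_904b92_lc
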